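import Pool.Agent.W345.GK.Cl2

/-! # GK-JAC: elements fixed by the Cartier operator are logarithmic derivatives -/

set_option autoImplicit false

open Polynomial Finset
open scoped TensorProduct nonZeroDivisors

namespace Pool.Agent.W822.GK.Jac

open Pool.Agent.W345.GK

section
variable {E : Type} [Field E] {D : E → E}

theorem D_zero (ha : ∀ x y, D (x + y) = D x + D y) : D 0 = 0 := by
  have h := ha 0 0
  rw [add_zero] at h
  exact left_eq_add.1 h

theorem D_neg (ha : ∀ x y, D (x + y) = D x + D y) (x : E) : D (-x) = - D x := by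
  have h := ha (-x) x
  rw [neg_add_cancel, D_zero ha] at h
  exact eq_neg_of_add_eq_zero_left h.symm

theorem D_pow (ha : ∀ x y, D (x + y) = D x + D y) (hm : ∀ x y, D (x * y) = x * D y + y * D x)
    (b : E) (n : ℕ) : D (b ^ (n + 1)) = ((n + 1 : ℕ) : E) * b ^ n * D b := by
  induction n with
  | zero => simp
  | succ n ih =>
    rw [pow_succ b (n + 1), hm, ih]
    push_cast
    ring

theorem D_pow_p (p : ℕ) [Fact p.Prime] [CharP E p] (ha : ∀ x y, D (x + y) = D x + D y)
    (hm : ∀ x y, D (x * y) = x * D y + y * D x) (b : E) : D (b ^ p) = 0 := by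
  obtain ⟨n, hn⟩ : ∃ n, p = n + 1 := ⟨p - 1, by have := (Fact.out : p.Prime).pos; omega⟩
  have h := D_pow ha hm b n
  rw [← hn, CharP.cast_eq_zero, zero_mul, zero_mul] at h
  exact h

end

theorem jac : S_CAR → S_JCF → S_JAC := by
  intro hcar hjcf k F Fc _ _ _ _ _ _ p _ _ P c Lam ι D hP hPi hL hι hD y hy
  haveI : CharP Fc p := charP_of_injective_ringHom c.inj p
  have hp1 : p = (p - 1) + 1 := by have := (Fact.out : p.Prime).pos; omega
  have hDp : ∀ x, D^[p] x = 0 := by
    intro x
    obtain ⟨b', hb', -, -⟩ := hcar k F Fc p P c Lam ι D hP hPi hL hι hD x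
    have h1 : D^[p - 1] x = - (b' ^ p) := by rw [hb', neg_neg]
    rw [hp1, Function.iterate_succ_apply', h1, D_neg hD.add, D_pow_p p hD.add hD.mul, neg_zero]
  have hj := hjcf Fc p D hD.add hD.mul hDp y hy 1
  classical
  have hex : ∃ m, (fun z => D z - y * z)^[m] (1 : Fc) = 0 := ⟨p, hj⟩
  set m := Nat.find hex with hm
  have h0 : (fun z => D z - y * z)^[m] (1 : Fc) = 0 := Nat.find_spec hex
  have hm0 : m ≠ 0 := by
    intro h
    rw [h] at h0
    exact one_ne_zero h0
  obtain ⟨m', hm'⟩ := Nat.exists_eq_succ_of_ne_zero hm0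
  refine ⟨(fun z => D z - y * z)^[m'] (1 : Fc), Nat.find_min hex (by omega), ?_⟩
  rw [hm', Function.iterate_succ_apply'] at h0
  exact sub_eq_zero.1 h0

end Pool.Agent.W822.GK.Jac
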